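import Pool.Agent.V7H6.PZ.Led
import Pool.Agent.N879.PZ.Aa1
import Pool.Agent.N879.PZ.Afx
import Pool.Agent.N879.PZ.Asm4
import Pool.Agent.N879.PZ.Crd
import Pool.Agent.N879.PZ.Eul1
import Pool.Agent.N879.PZ.Eut1
import Pool.Agent.N879.PZ.Gcm
import Pool.Agent.N879.PZ.Ker
import Pool.Agent.N879.PZ.Kh
import Pool.Agent.N879.PZ.Kl
import Pool.Agent.N879.PZ.Lb1
import Pool.Agent.N879.PZ.Lc
import Pool.Agent.N879.PZ.Loc1
import Pool.Agent.N879.PZ.Lt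
import Pool.Agent.N879.PZ.M4l
import Pool.Agent.N879.PZ.Msq
import Pool.Agent.N879.PZ.Telc
import Pool.Agent.N879.PZ.Tw
import Pool.Agent.N879.PZ.Win
import Pool.Agent.N879.PZ.Ze1

set_option autoImplicit false

/-! Assembly of the project PZ of the starting library. -/

namespace Pool.Agent.V7H6.PZ

open Pool.Agent.N879.PZ

theorem led : S_LED := t_LED t_FUB (t_WIN t_LC) (t_TW t_AFX t_CRD) t_CTG

theorem mean : S_MEAN2 := by
  have hK : S_KER := t_KER t_AFX (t_KH t_CRD t_LC t_LT) t_KL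
  have hM : S_M4L := t_M4L t_AFX t_CRD t_LT
  have hW : S_WIN := t_WIN t_LC
  have hG : S_GCM := t_GCM hM
  exact t_MEAN2 hK t_TELC t_CTG hM hW hG (t_SML t_FUB hM) (t_GCD t_FUB hM hW hG) led
    (t_MSQ (t_TW t_AFX t_CRD))

theorem main : S_MAIN2 :=
  t_MAIN2 t_CTG mean (t_EUL1 t_LOC1 (t_EUT1 t_LSM1)) (t_LB1 t_LOC1) (t_ZE1 (t_AA1 t_LOC1))

end Pool.Agent.V7H6.PZ
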