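import Pool.Agent.N879.PZ.Sml
import Pool.Agent.N879.PZ.Ctg

set_option autoImplicit false

/-! Project PZ of the starting library: the missing piece LED (the leading term of the model). -/

namespace Pool.Agent.V7H6.PZ

open Complex Filter Topology MeasureTheory Set
open Pool.Agent.N879.PZ
open Pool.Agent.N879.PZ.Smlaux
open Pool.Agent.Y969.GP (ff ht lam FR mB)
open Pool.Agent.Y969.SM (ff_cont mB_int)

noncomputable section

/-- the terms of the telescoping sum -/
def GG {n : ℕ} (f g : Fin n → ℂ) (i j : Fin n) : ℂ := if j < i then g j else if j = i then f j - g j else f j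

lemma tele : ∀ {n : ℕ} (f g : Fin n → ℂ), ∏ j, f j - ∏ j, g j = ∑ i, ∏ j, GG f g i j := by
  intro n
  induction n with
  | zero => intro f g; simp
  | succ n ih =>
    intro f g
    rw [Fin.prod_univ_succ, Fin.prod_univ_succ, Fin.sum_univ_succ]
    have e0 : ∏ j, GG f g 0 j = (f 0 - g 0) * ∏ j : Fin n, f j.succ := by
      have a1 : GG f g 0 0 = f 0 - g 0 := by simp [GG]
      have a2 : ∀ j : Fin n, GG f g 0 j.succ = f j.succ := by
        intro j
        unfold GG
        rw [if_neg (by simp), if_neg (Fin.succ_ne_zero j)]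
      rw [Fin.prod_univ_succ, a1, Finset.prod_congr rfl fun j _ => a2 j]
    have e1 : ∀ i : Fin n, ∏ j, GG f g i.succ j =
        g 0 * ∏ j : Fin n, GG (fun j => f j.succ) (fun j => g j.succ) i j := by
      intro i
      have a1 : GG f g i.succ 0 = g 0 := by simp [GG]
      have a2 : ∀ j : Fin n, GG f g i.succ j.succ = GG (fun j => f j.succ) (fun j => g j.succ) i j := by
        intro j
        unfold GG
        simp only [Fin.succ_lt_succ_iff, Fin.succ_inj]
      rw [Fin.prod_univ_succ, a1, Finset.prod_congr rfl fun j _ => a2 j]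
    rw [e0, Finset.sum_congr rfl fun i _ => e1 i, ← Finset.mul_sum, ← ih]
    ring

/-- the first moment -/
lemma ff_int (h : S_TW) : ∃ C : ℝ, 0 < C ∧ ∀ T a : ℝ, 3 ≤ T → T ^ (7 / 8 : ℝ) ≤ a → a ≤ T →
    ∫ t in Icc a T, ff t ≤ C * T * Real.log T := by
  obtain ⟨C, hC, h⟩ := h
  refine ⟨1 + 3 * C, by positivity, fun T a hT ha haT => ?_⟩
  have hT0 : 0 < T := by linarith
  have ha1 := one_le_a hT ha
  have hL := log_one hT
  have hht : ht (1, 1) = 1 := by simp [Pool.Agent.Y969.GP.ht]
  have hlam : lam (1, 1) = 0 := by simp [Pool.Agent.Y969.GP.lam]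
  have h1 := h T a (1, 1) hT ha haT le_rfl le_rfl (by simp) (by
    rw [hht]; exact Real.one_le_rpow (by linarith) (by norm_num))
  rw [hht] at h1
  have hee : ∀ t, ee t (1, 1) = 1 := fun t => by unfold ee; rw [hlam]; simp
  simp only [hee, mul_one, Real.sqrt_one, inv_one, Real.log_one, add_zero] at h1
  have e1 : ∫ t in Icc a T, ff t = ∫ t in a..T, ff t := by
    rw [intervalIntegral.integral_of_le haT, integral_Icc_eq_integral_Ioc]
  have e2 : (∫ t in a..T, (ff t : ℂ)) = ((∫ t in a..T, ff t : ℝ) : ℂ) := intervalIntegral.integral_ofReal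
  rw [e1]
  rw [e2, ← Complex.ofReal_sub, Complex.norm_real, Real.norm_eq_abs] at h1
  have h2 := (le_abs_self _).trans h1
  have h3 : T ^ (15 / 16 : ℝ) ≤ T := by
    calc T ^ (15 / 16 : ℝ) ≤ T ^ (1 : ℝ) := Real.rpow_le_rpow_of_exponent_le (by linarith) (by norm_num)
      _ = T := Real.rpow_one T
  have h4 : a / T ≤ 1 := by rw [div_le_one hT0]; exact haT
  have h5 : a / T * Real.log T ≤ Real.log T := by nlinarith
  have h6 : C * T * (1 + a / T * Real.log T) ≤ C * T * (2 * Real.log T) := by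
    refine mul_le_mul_of_nonneg_left (by linarith) (by positivity)
  have h7 : C * T ^ (15 / 16 : ℝ) ≤ C * T * Real.log T := by
    calc C * T ^ (15 / 16 : ℝ) ≤ C * T := by gcongr
      _ ≤ C * T * Real.log T := by nlinarith [mul_pos hC hT0]
  have h8 : C * T * (1 + 0 + a / T * Real.log T) = C * T * (1 + a / T * Real.log T) := by ring
  nlinarith [h2, h6, h7, h8]

lemma P1_cont (N : ℕ) : Continuous (P1 N) := by
  unfold P1 ee
  fun_prop

lemma win_le {U K B : ℝ} (hU : 0 ≤ U) {f : ℝ → ℂ} (hf : Continuous f) (t : ℝ) (hB : 0 ≤ B)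
    (h : ∫ c in (0:ℝ)..U, ‖f (t + c)‖ ^ 2 ≤ K) (hK : K ≤ U * B ^ 2) :
    ∫ c in (0:ℝ)..U, ‖f (t + c)‖ ≤ U * B :=
  cs_int hU (f := fun c => ‖f (t + c)‖) ((hf.comp (by fun_prop)).norm) hB (h.trans hK)

/-- LED -/
theorem t_LED (hF : S_FUB) (hW : S_WIN) (hTW : S_TW) (hC : S_CTG) : S_LED := by
  intro n
  obtain ⟨C1, hC1, hWIN⟩ := hW
  obtain ⟨C2, hC2, hff⟩ := ff_int hTW
  refine ⟨(n + 1) * √C1 ^ n * C2, by positivity, ?_⟩
  rintro T U a N ⟨hT, hU, hU4, ha, haT, hN, hN16, hNU⟩
  have hPar : Par T U a N := ⟨hT, hU, hU4, ha, haT, hN, hN16, hNU⟩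
  have hT0 : 0 < T := by linarith
  have hU0 : 0 < U := by linarith
  have ha1 := one_le_a hT ha
  have ha0 : 0 < a := by linarith
  have hL := log_one hT
  have hLN : 1 ≤ 1 + Real.log N := by
    have : 0 ≤ Real.log N := Real.log_nonneg (by exact_mod_cast hN)
    linarith
  have hLA : 1 ≤ 1 + Real.log (T / a) := by
    have : 0 ≤ Real.log (T / a) := Real.log_nonneg (by rw [le_div_iff₀ ha0]; linarith)
    linarith
  have hffT := hff T a hT ha haT
  obtain ⟨L, hLd⟩ : ∃ L, L = Real.log T := ⟨_, rfl⟩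
  obtain ⟨LN, hLNd⟩ : ∃ LN, LN = 1 + Real.log N := ⟨_, rfl⟩
  obtain ⟨LA, hLAd⟩ : ∃ LA, LA = 1 + Real.log (T / a) := ⟨_, rfl⟩
  have hW1 := hWIN T U a N hPar
  rw [← hLd] at hL hW1 hffT ⊢
  rw [← hLNd] at hLN hW1 ⊢
  rw [← hLAd] at hLA hW1 ⊢
  have hL0 : 0 < L := by linarith
  have hLN0 : 0 < LN := by linarith
  have hLA0 : 0 < LA := by linarith
  have hsC : 0 < √C1 := Real.sqrt_pos.2 hC1
  have hsC2 : √C1 ^ 2 = C1 := Real.sq_sqrt hC1.le
  -- the factors
  let f : ℝ → ℂ := DN N
  let g : ℝ → ℂ := fun u => (L : ℂ) * P1 N u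
  have hfc : Continuous f := DN_cont N
  have hgc : Continuous g := continuous_const.mul (P1_cont N)
  let G : Fin n → Fin n → ℝ → ℂ := fun i j u => if j < i then g u else if j = i then f u - g u else f u
  have hGc : ∀ i j, Continuous (G i j) := by
    intro i j
    by_cases h1 : j < i
    · have : G i j = g := by funext u; simp [G, h1]
      rw [this]; exact hgc
    · by_cases h2 : j = i
      · have : G i j = fun u => f u - g u := by funext u; simp [G, h2]
        rw [this]; exact hfc.sub hgc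
      · have : G i j = f := by funext u; simp [G, h1, h2]
        rw [this]; exact hfc
  have hdec : ∀ (c : Fin n → ℝ) (t : ℝ), ∏ j, DN N (t + c j) - ∏ j, ((L : ℂ) * P1 N (t + c j)) =
      ∑ i, ∏ j, G i j (t + c j) := fun c t => tele (fun j => f (t + c j)) (fun j => g (t + c j))
  have hcff : Continuous fun t => (ff t : ℂ) := Complex.continuous_ofReal.comp ff_cont
  have hJ : ∀ c : Fin n → ℝ, ∫ t in Icc a T, (ff t : ℂ) * (∏ j, DN N (t + c j) -
      ∏ j, ((L : ℂ) * P1 N (t + c j))) = ∑ i, ∫ t in Icc a T, (ff t : ℂ) * ∏ j, G i j (t + c j) := by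
    intro c
    rw [← integral_finsetSum]
    · refine setIntegral_congr_fun measurableSet_Icc fun t _ => ?_
      rw [hdec, Finset.mul_sum]
    · intro i _
      have : Continuous fun t => (ff t : ℂ) * ∏ j, G i j (t + c j) :=
        hcff.mul (continuous_finsetProd _ fun j _ => (hGc i j).comp (by fun_prop))
      exact this.integrableOn_Icc
  simp only [hJ]
  have hcont : ∀ i, Continuous fun c : Fin n → ℝ => ∫ t in Icc a T, (ff t : ℂ) * ∏ j, G i j (t + c j) :=
    fun i => hC n a T (Icc a T) (fun t => (ff t : ℂ)) (G i) haT measurableSet_Icc subset_rfl (ff_Wb a T) (hGc i)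
  -- one term
  obtain ⟨m0, hm0⟩ : ∃ m0, m0 = √C1 * U * LN ^ 2 * L := ⟨_, rfl⟩
  have hm00 : 0 < m0 := by rw [hm0]; positivity
  have hwin : ∀ i j : Fin n, ∀ t ∈ Icc a T, ∫ c in (0:ℝ)..U, ‖G i j (t + c)‖ ≤
      m0 * (if j = i then LA / L else 1) := by
    intro i j t ht
    obtain ⟨w1, w2, w3⟩ := hW1 t ht.1 ht.2
    by_cases h1 : j < i
    · have e : G i j = g := by funext u; simp [G, h1]
      rw [e, if_neg h1.ne, mul_one]
      have h3 : ∫ c in (0:ℝ)..U, ‖g (t + c)‖ ^ 2 ≤ L ^ 2 * (C1 * U * LN ^ 2) := by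
        have e2 : ∀ c, ‖g (t + c)‖ ^ 2 = L ^ 2 * ‖P1 N (t + c)‖ ^ 2 := by
          intro c
          simp only [g, norm_mul, Complex.norm_real, Real.norm_of_nonneg hL0.le, mul_pow]
        simp only [e2]
        rw [intervalIntegral.integral_const_mul]
        exact mul_le_mul_of_nonneg_left w1 (by positivity)
      have h4 := win_le hU0.le hgc t (B := √C1 * LN * L) (by positivity) h3 (by
        rw [mul_pow, mul_pow, hsC2]; exact le_of_eq (by ring))
      refine h4.trans ?_
      rw [hm0]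
      have : LN ≤ LN ^ 2 := by nlinarith
      calc U * (√C1 * LN * L) ≤ U * (√C1 * LN ^ 2 * L) := by gcongr
        _ = _ := by ring
    · by_cases h2 : j = i
      · have e : G i j = fun u => f u - g u := by funext u; simp [G, h2]
        rw [e, if_pos h2]
        have h4 := win_le hU0.le (hfc.sub hgc) t (B := √C1 * LN ^ 2 * LA) (by positivity) w3 (by
          rw [mul_pow, mul_pow, hsC2]; exact le_of_eq (by ring))
        refine h4.trans (le_of_eq ?_)
        rw [hm0]
        field_simp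
      · have e : G i j = f := by funext u; simp [G, h1, h2]
        rw [e, if_neg h2, mul_one]
        have h4 := win_le hU0.le hfc t (B := √C1 * LN ^ 2 * L) (by positivity) w2 (by
          rw [mul_pow, mul_pow, hsC2]; exact le_of_eq (by ring))
        refine h4.trans (le_of_eq ?_)
        rw [hm0]
        ring
  have hterm : ∀ i : Fin n, ∫ c, ‖∫ t in Icc a T, (ff t : ℂ) * ∏ j, G i j (t + c j)‖ ∂(mB n 0 U) ≤
      C2 * T * m0 ^ n * LA := by
    intro i
    refine (hF n a T U (Icc a T) (fun t => (ff t : ℂ)) (G i) haT hU0 measurableSet_Icc subset_rfl (ff_Wb a T)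
      (hGc i)).trans ?_
    simp only [nff]
    have hb : ∀ t ∈ Icc a T, ff t * ∏ j, ∫ c in (0:ℝ)..U, ‖G i j (t + c)‖ ≤ ff t * (m0 ^ n * (LA / L)) := by
      intro t ht
      refine mul_le_mul_of_nonneg_left ?_ (ff_nonneg t)
      calc ∏ j, ∫ c in (0:ℝ)..U, ‖G i j (t + c)‖ ≤ ∏ j, (m0 * (if j = i then LA / L else 1)) := by
            refine Finset.prod_le_prod (fun j _ => intervalIntegral.integral_nonneg hU0.le fun c _ => norm_nonneg _)
              fun j _ => hwin i j t ht
        _ = _ := by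
            rw [Finset.prod_mul_distrib, Finset.prod_const, Finset.card_univ, Fintype.card_fin,
              Finset.prod_ite_eq' Finset.univ i, if_pos (Finset.mem_univ i)]
    have i1 : IntegrableOn (fun t => ff t * ∏ j, ∫ c in (0:ℝ)..U, ‖G i j (t + c)‖) (Icc a T) := by
      have : Continuous fun t => ff t * ∏ j, ∫ c in (0:ℝ)..U, ‖G i j (t + c)‖ :=
        ff_cont.mul (continuous_finsetProd _ fun j _ => wcont (hGc i j) U)
      exact this.integrableOn_Icc
    have i2 : IntegrableOn (fun t => ff t * (m0 ^ n * (LA / L))) (Icc a T) :=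
      (ff_cont.mul continuous_const).integrableOn_Icc
    refine (setIntegral_mono_on i1 i2 measurableSet_Icc hb).trans ?_
    rw [integral_mul_const]
    calc (∫ t in Icc a T, ff t) * (m0 ^ n * (LA / L)) ≤ (C2 * T * L) * (m0 ^ n * (LA / L)) := by
          gcongr
      _ = _ := by field_simp
  -- the sum
  calc ∫ c, ‖∑ i, ∫ t in Icc a T, (ff t : ℂ) * ∏ j, G i j (t + c j)‖ ∂(mB n 0 U)
      ≤ ∫ c, ∑ i, ‖∫ t in Icc a T, (ff t : ℂ) * ∏ j, G i j (t + c j)‖ ∂(mB n 0 U) := by
        refine integral_mono_of_nonneg (Eventually.of_forall fun c => norm_nonneg _) ?_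
          (Eventually.of_forall fun c => norm_sum_le _ _)
        exact integrable_finsetSum _ fun i _ => mB_int (hcont i).norm 0 U
    _ = ∑ i, ∫ c, ‖∫ t in Icc a T, (ff t : ℂ) * ∏ j, G i j (t + c j)‖ ∂(mB n 0 U) :=
        integral_finsetSum _ fun i _ => mB_int (hcont i).norm 0 U
    _ ≤ ∑ _i : Fin n, C2 * T * m0 ^ n * LA := Finset.sum_le_sum fun i _ => hterm i
    _ = n * (C2 * T * m0 ^ n * LA) := by rw [Finset.sum_const, Finset.card_univ, Fintype.card_fin, nsmul_eq_mul]
    _ ≤ (n + 1) * (C2 * T * m0 ^ n * LA) := by gcongr; linarith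
    _ = _ := by
        rw [hm0, mul_pow, mul_pow, mul_pow, ← pow_mul]
        ring

end

end Pool.Agent.V7H6.PZ
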